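import Pool.Agent.Helper89.GP.GoalsA
import Pool.Agent.Helper89.GP.Basic

/-!
# Packet GP-EXB: the exponential bound from log-concavity
-/

namespace Pool.Agent.Helper50.GP

open Finset MeasureTheory Pool.Agent.Helper89.GP

noncomputable section

theorem sum_bq {n : ℕ} (R : Fin n → Fin n → Prop) (u v : Fin n) :
    ∑ k ∈ range n, bq R u v k = Pr R (fun σ => po σ u < po σ v) := by
  classical
  unfold bq
  simp_rw [Pr_eq_Ex]
  rw [← Ex_sum]
  apply Ex_congr
  intro σ hσ
  by_cases h : po σ u < po σ v
  · rw [if_pos h, Finset.sum_eq_single (po σ v - po σ u - 1)]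
    · rw [if_pos (by omega)]
    · intro b _ hb
      rw [if_neg (by omega)]
    · intro hb
      exfalso
      apply hb
      rw [Finset.mem_range]
      have := po_lt_n σ v
      omega
  · rw [if_neg h]
    apply Finset.sum_eq_zero
    intro b _
    rw [if_neg (by omega)]

theorem An_eq {n : ℕ} (R : Fin n → Fin n → Prop) (u v : Fin n) :
    An R u v = ∑ k ∈ range n, bq R v u k := by
  rw [sum_bq]; rfl

theorem bq_nonneg {n : ℕ} (R : Fin n → Fin n → Prop) (u v : Fin n) (k : ℕ) : 0 ≤ bq R u v k :=
  Pr_nonneg _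

theorem Ff_nonneg {n : ℕ} (R : Fin n → Fin n → Prop) (u v : Fin n) {t : ℝ} (ht : 0 ≤ t) :
    0 ≤ Ff R u v t := by
  unfold Ff
  apply Finset.sum_nonneg
  intro k _
  have := bq_nonneg R u v k
  positivity

theorem Ff_zero {n : ℕ} (hn : 0 < n) (R : Fin n → Fin n → Prop) (u v : Fin n) :
    Ff R u v 0 = bq R u v 0 := by
  unfold Ff
  rw [Finset.sum_eq_single 0]
  · simp
  · intro b _ hb
    rw [zero_pow hb]; simp
  · intro h
    exact absurd (Finset.mem_range.2 hn) h

theorem intOn (k : ℕ) : IntegrableOn (fun x : ℝ => Real.exp (-x) * x ^ k) (Set.Ioi 0) := by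
  have h := Real.GammaIntegral_convergent (s := (k : ℝ) + 1) (by positivity)
  have e : (fun x : ℝ => Real.exp (-x) * x ^ ((k : ℝ) + 1 - 1)) =
      fun x : ℝ => Real.exp (-x) * x ^ k := by
    funext x
    rw [add_sub_cancel_right, Real.rpow_natCast]
  rwa [e] at h

theorem intVal (k : ℕ) : ∫ x in Set.Ioi (0 : ℝ), Real.exp (-x) * x ^ k = (k.factorial : ℝ) := by
  have h := Real.Gamma_eq_integral (s := (k : ℝ) + 1) (by positivity)
  rw [Real.Gamma_nat_eq_factorial] at h
  rw [h]
  congr 1
  funext x
  rw [add_sub_cancel_right, Real.rpow_natCast]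

theorem intFf_on {n : ℕ} (R : Fin n → Fin n → Prop) (u v : Fin n) :
    IntegrableOn (fun r : ℝ => Real.exp (-r) * Ff R u v r) (Set.Ioi 0) := by
  have e : (fun r : ℝ => Real.exp (-r) * Ff R u v r) = fun r =>
      ∑ k ∈ range n, (bq R u v k / (k.factorial : ℝ)) * (Real.exp (-r) * r ^ k) := by
    funext r
    unfold Ff
    rw [Finset.mul_sum]
    apply Finset.sum_congr rfl
    intro k _
    ring
  rw [e]
  exact integrable_finsetSum _ fun k _ => (intOn k).const_mul _

theorem intFf {n : ℕ} (R : Fin n → Fin n → Prop) (u v : Fin n) :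
    ∫ r in Set.Ioi (0 : ℝ), Real.exp (-r) * Ff R u v r = ∑ k ∈ range n, bq R u v k := by
  have e : (fun r : ℝ => Real.exp (-r) * Ff R u v r) = fun r =>
      ∑ k ∈ range n, (bq R u v k / (k.factorial : ℝ)) * (Real.exp (-r) * r ^ k) := by
    funext r
    unfold Ff
    rw [Finset.mul_sum]
    apply Finset.sum_congr rfl
    intro k _
    ring
  rw [e, integral_finsetSum _ fun k _ => (intOn k).const_mul _]
  apply Finset.sum_congr rfl
  intro k _
  rw [integral_const_mul, intVal]
  have : (k.factorial : ℝ) ≠ 0 := by positivity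
  field_simp

/-- EXB. -/
theorem exb (hL : LcgStmt) (hP : PosStmt) : ExbStmt := by
  intro n R u v t hI hb ht
  have hn : 0 < n := Nat.lt_of_le_of_lt (Nat.zero_le _) u.isLt
  have hc : 0 < bq R u v 0 := hP n R u v hI
  obtain ⟨c, hcdef⟩ : ∃ c, c = bq R u v 0 := ⟨_, rfl⟩
  obtain ⟨A, hAdef⟩ : ∃ A, A = An R u v := ⟨_, rfl⟩
  rw [← hcdef, ← hAdef]
  rw [← hcdef] at hc
  have hA : 0 < A := by
    rw [hAdef]
    obtain ⟨σ, h1, h2⟩ := hI.2
    exact Pr_pos h1 h2
  have hcA : 0 < c / A := div_pos hc hA
  rcases ht.eq_or_lt with h0 | h0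
  · rw [← h0, Ff_zero hn, ← hcdef]; simp
  set G := Real.exp (-t) * Ff R u v t with hG
  have hFG : Ff R u v t = Real.exp t * G := by
    rw [hG, ← mul_assoc, ← Real.exp_add]; simp
  have hexp : Real.exp ((1 + c / A) * t) = Real.exp t * Real.exp (c / A * t) := by
    rw [← Real.exp_add]; congr 1; ring
  suffices hGt : G ≤ c * Real.exp (c / A * t) by
    rw [hFG, hexp]
    calc Real.exp t * G ≤ Real.exp t * (c * Real.exp (c / A * t)) :=
          mul_le_mul_of_nonneg_left hGt (Real.exp_pos t).le
      _ = c * (Real.exp t * Real.exp (c / A * t)) := by ring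
  rcases le_or_gt G c with hGc | hGc
  · calc G ≤ c := hGc
      _ ≤ c * Real.exp (c / A * t) :=
        le_mul_of_one_le_right hc.le (Real.one_le_exp (by positivity))
  have hGpos : 0 < G := hc.trans hGc
  set s := Real.log (G / c) / t with hs
  have hlog : 0 < Real.log (G / c) := Real.log_pos ((one_lt_div hc).2 hGc)
  have hspos : 0 < s := div_pos hlog h0
  have hGs : G = c * Real.exp (s * t) := by
    rw [hs, div_mul_cancel₀ _ h0.ne', Real.exp_log (div_pos hGpos hc)]
    field_simp
  -- the pointwise bound on the other side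
  have key : ∀ r : ℝ, 0 < r → Real.exp (-r) * Ff R v u r ≤ c * Real.exp (-s * r) := by
    intro r hr
    have hrt : 0 < r + t := by positivity
    have hl := hL n R u v (-r) t (r / (r + t)) hI.nonempty hI.ne (div_pos hr hrt)
      ((div_lt_one hrt).2 (by linarith))
    have e1 : (1 : ℝ) - r / (r + t) = t / (r + t) := by field_simp; ring
    have e2 : (1 - r / (r + t)) * -r + r / (r + t) * t = 0 := by field_simp; ring
    rw [e2, e1] at hl
    have g0 : Gd R u v 0 = c := by
      unfold Gd
      rw [if_pos le_rfl, Ff_zero hn, ← hcdef]; simp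
    have g1 : Gd R u v t = G := by
      unfold Gd
      rw [if_pos ht]
    have g2 : Gd R u v (-r) = Real.exp (-r) * Ff R v u r := by
      unfold Gd
      rw [if_neg (by linarith), neg_neg]
    rw [g0, g1, g2] at hl
    set H := Real.exp (-r) * Ff R v u r with hH
    have hH0 : 0 ≤ H := mul_nonneg (Real.exp_pos _).le (Ff_nonneg R v u hr.le)
    -- raise to the power (r + t) / t
    have h3 : (H ^ (t / (r + t)) * G ^ (r / (r + t))) ^ ((r + t) / t) ≤ c ^ ((r + t) / t) :=
      Real.rpow_le_rpow (by positivity) hl (by positivity)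
    rw [Real.mul_rpow (by positivity) (by positivity), ← Real.rpow_mul hH0,
      ← Real.rpow_mul hGpos.le] at h3
    have e3 : t / (r + t) * ((r + t) / t) = 1 := by field_simp
    have e4 : r / (r + t) * ((r + t) / t) = r / t := by field_simp
    rw [e3, e4, Real.rpow_one] at h3
    have e5 : c ^ ((r + t) / t) = c * c ^ (r / t) := by
      rw [show (r + t) / t = 1 + r / t by field_simp; ring, Real.rpow_add hc, Real.rpow_one]
    rw [e5] at h3
    have e6 : G ^ (r / t) = c ^ (r / t) * Real.exp (s * r) := by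
      rw [hGs, Real.mul_rpow hc.le (Real.exp_pos _).le, ← Real.exp_mul]
      congr 2
      field_simp
    rw [e6] at h3
    have hcp : 0 < c ^ (r / t) := Real.rpow_pos_of_pos hc _
    have h4 : H * Real.exp (s * r) ≤ c := by
      have : c ^ (r / t) * (H * Real.exp (s * r)) ≤ c ^ (r / t) * c := by
        calc c ^ (r / t) * (H * Real.exp (s * r)) = H * (c ^ (r / t) * Real.exp (s * r)) := by ring
          _ ≤ c * c ^ (r / t) := h3
          _ = c ^ (r / t) * c := by ring
      exact le_of_mul_le_mul_left this hcp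
    have h5 : Real.exp (-s * r) = (Real.exp (s * r))⁻¹ := by
      rw [← Real.exp_neg]; congr 1; ring
    rw [h5, ← div_eq_mul_inv, le_div_iff₀ (Real.exp_pos _)]
    exact h4
  have hint : A ≤ c / s := by
    have e1 : A = ∫ r in Set.Ioi (0 : ℝ), Real.exp (-r) * Ff R v u r := by
      rw [intFf, hAdef, An_eq]
    have e2 : ∫ r in Set.Ioi (0 : ℝ), c * Real.exp (-s * r) = c / s := by
      rw [integral_const_mul, integral_exp_mul_Ioi (by linarith) 0]
      simp only [mul_zero, Real.exp_zero]
      field_simp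
    rw [e1, ← e2]
    apply setIntegral_mono_on (intFf_on R v u)
      ((integrableOn_exp_mul_Ioi (by linarith) 0).const_mul c) measurableSet_Ioi
    intro r hr
    exact key r hr
  have hsc : s ≤ c / A := by
    rw [le_div_iff₀ hA]
    rw [le_div_iff₀ hspos] at hint
    linarith
  rw [hGs]
  apply mul_le_mul_of_nonneg_left _ hc.le
  apply Real.exp_le_exp.2
  exact mul_le_mul_of_nonneg_right hsc ht

end

end Pool.Agent.Helper50.GP
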