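import Pool.Agent.Helper72.GP.GoalsB

/-!
# Packet SEC of project GP
-/

set_option autoImplicit false

namespace Pool.Agent.Helper50.GP

open Pool.Agent.Helper72.GP
open Finset Polynomial Filter Topology
open scoped Polynomial.Bivariate Classical

theorem evr_add (g h : ℝ[X][Y]) (x y : ℝ) : evr (g + h) x y = evr g x y + evr h x y := by
  simp [evr]

theorem evr_mul (g h : ℝ[X][Y]) (x y : ℝ) : evr (g * h) x y = evr g x y * evr h x y := by
  simp [evr]

theorem evr_monomial (n : ℕ) (a : ℝ[X]) (x y : ℝ) : evr (monomial n a) x y = a.eval x * y ^ n := by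
  rw [evr, ← C_mul_X_pow_eq_monomial]
  simp [evalEval]

theorem dX_add (g h : ℝ[X][Y]) : dX (g + h) = dX g + dX h := by
  unfold dX
  rw [Polynomial.sum_add_index]
  · intro i
    simp
  · intro i a b
    simp [add_mul]

theorem dX_monomial (n : ℕ) (a : ℝ[X]) : dX (monomial n a) = monomial n (derivative a) := by
  unfold dX
  rw [Polynomial.sum_monomial_index]
  · rw [C_mul_X_pow_eq_monomial]
  · simp

theorem dY_add (g h : ℝ[X][Y]) : dY (g + h) = dY g + dY h := by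
  simp [dY]

theorem dY_monomial (n : ℕ) (a : ℝ[X]) : dY (monomial n a) = monomial (n - 1) (a * (n : ℝ[X])) := by
  simp [dY, derivative_monomial]

theorem dX_dY (g : ℝ[X][Y]) : dX (dY g) = dY (dX g) := by
  induction g using Polynomial.induction_on' with
  | add p q hp hq => rw [dY_add, dX_add, dX_add, dY_add, hp, hq]
  | monomial n a =>
    rw [dY_monomial, dX_monomial, dX_monomial, dY_monomial]
    congr 1
    simp

/-- Chain rule. -/
theorem chain (g : ℝ[X][Y]) (ψ : ℝ → ℝ) (ψ' x : ℝ) (h : HasDerivAt ψ ψ' x) :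
    HasDerivAt (fun t => evr g t (ψ t))
      (evr (dX g) x (ψ x) + evr (dY g) x (ψ x) * ψ') x := by
  induction g using Polynomial.induction_on' with
  | add p q hp hq =>
    have := hp.add hq
    have e : (fun t => evr (p + q) t (ψ t)) = (fun t => evr p t (ψ t)) + fun t => evr q t (ψ t) := by
      funext t
      exact evr_add p q t (ψ t)
    rw [e]
    refine this.congr_deriv ?_
    rw [dX_add, dY_add, evr_add, evr_add]
    ring
  | monomial n a =>
    have e : (fun t => evr (monomial n a) t (ψ t)) = fun t => a.eval t * (ψ t) ^ n := by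
      funext t
      exact evr_monomial n a t (ψ t)
    rw [e]
    have h1 := (a.hasDerivAt x).mul (h.pow n)
    refine h1.congr_deriv ?_
    rw [dX_monomial, dY_monomial, evr_monomial, evr_monomial]
    simp
    ring

theorem exA (x0 y0 : ℝ) (g : ℝ[X][Y]) : ∃ A : ℝ → ℝ → ℝ,
    (∀ x y, evr g x y - evr g x0 y = (x - x0) * A x y) ∧
    A x0 y0 = evr (dX g) x0 y0 ∧ ContinuousAt (fun p : ℝ × ℝ => A p.1 p.2) (x0, y0) := by
  induction g using Polynomial.induction_on' with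
  | add p q hp hq =>
    obtain ⟨A, h1, h2, h3⟩ := hp
    obtain ⟨B, k1, k2, k3⟩ := hq
    refine ⟨fun x y => A x y + B x y, fun x y => ?_, ?_, h3.add k3⟩
    · rw [evr_add, evr_add]
      linear_combination h1 x y + k1 x y
    · show A x0 y0 + B x0 y0 = _
      rw [dX_add, evr_add, h2, k2]
  | monomial n a =>
    refine ⟨fun x y => dslope (fun t => a.eval t) x0 x * y ^ n, fun x y => ?_, ?_, ?_⟩
    · rw [evr_monomial, evr_monomial]
      have := sub_smul_dslope (fun t => a.eval t) x0 x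
      simp only [smul_eq_mul] at this
      linear_combination (- y ^ n) * this
    · show dslope (fun t => a.eval t) x0 x0 * y0 ^ n = _
      rw [dX_monomial, evr_monomial, dslope_same, Polynomial.deriv]
    · have h1 : ContinuousAt (dslope (fun t => a.eval t) x0) x0 := by
        rw [continuousAt_dslope_same]
        exact a.differentiableAt
      have h2 : ContinuousAt (fun p : ℝ × ℝ => dslope (fun t => a.eval t) x0 p.1) (x0, y0) :=
        ContinuousAt.comp (f := Prod.fst) (x := (x0, y0)) h1 continuousAt_fst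
      exact h2.mul (continuousAt_snd.pow n)

/-- First derivative. -/
theorem first (f : ℝ[X][Y]) (ψ : ℝ → ℝ) (x0 : ℝ) (hc : ContinuousAt ψ x0)
    (h0 : ∀ᶠ x in 𝓝 x0, evr f x (ψ x) = 0) (h1 : evr (dY f) x0 (ψ x0) ≠ 0) :
    HasDerivAt ψ (-(evr (dX f) x0 (ψ x0)) / evr (dY f) x0 (ψ x0)) x0 := by
  obtain ⟨A, hA, hA0, hAc⟩ := exA x0 (ψ x0) f
  obtain ⟨g, hg⟩ : ∃ g : ℝ[X], g = f.map (evalRingHom x0) := ⟨_, rfl⟩
  have hge : ∀ y, g.eval y = evr f x0 y := by
    intro y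
    rw [hg, map_evalRingHom_eval, evr]
  obtain ⟨B, hB⟩ : ∃ B : ℝ → ℝ, B = dslope (fun t => g.eval t) (ψ x0) := ⟨_, rfl⟩
  have hBd : ∀ y, evr f x0 y - evr f x0 (ψ x0) = (y - ψ x0) * B y := by
    intro y
    have := sub_smul_dslope (fun t => g.eval t) (ψ x0) y
    simp only [smul_eq_mul] at this
    rw [hB, this, hge, hge]
  have hB0 : B (ψ x0) = evr (dY f) x0 (ψ x0) := by
    rw [hB, dslope_same, Polynomial.deriv, hg, derivative_map, map_evalRingHom_eval]
    rfl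
  have hBc : ContinuousAt B (ψ x0) := by
    rw [hB, continuousAt_dslope_same]
    exact g.differentiableAt
  have hBψ : ContinuousAt (fun x => B (ψ x)) x0 := ContinuousAt.comp (f := ψ) (x := x0) hBc hc
  have hAψ : ContinuousAt (fun x => A x (ψ x)) x0 :=
    ContinuousAt.comp (f := fun x => (x, ψ x)) (x := x0) hAc (continuousAt_id.prodMk hc)
  have hBne : ∀ᶠ x in 𝓝 x0, B (ψ x) ≠ 0 := hBψ.eventually_ne (by show B (ψ x0) ≠ 0; rw [hB0]; exact h1)
  rw [hasDerivAt_iff_tendsto_slope]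
  have hT : Tendsto (fun x => -(A x (ψ x)) / B (ψ x)) (𝓝 x0)
      (𝓝 (-(A x0 (ψ x0)) / B (ψ x0))) := by
    apply Tendsto.div hAψ.neg hBψ
    show B (ψ x0) ≠ 0
    rw [hB0]
    exact h1
  rw [hA0, hB0] at hT
  have hT' := hT.mono_left (nhdsWithin_le_nhds (s := {x0}ᶜ))
  refine hT'.congr' ?_
  have hx00 : evr f x0 (ψ x0) = 0 := h0.self_of_nhds
  have hev : ∀ᶠ x in 𝓝[≠] x0, evr f x (ψ x) = 0 ∧ B (ψ x) ≠ 0 :=
    (h0.and hBne).filter_mono nhdsWithin_le_nhds
  filter_upwards [hev, self_mem_nhdsWithin] with x hx hne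
  have hne' : x - x0 ≠ 0 := sub_ne_zero.mpr hne
  rw [slope_def_field, div_eq_div_iff hx.2 hne']
  have e1 := hA x (ψ x)
  have e2 := hBd (ψ x)
  rw [hx00] at e2
  rw [hx.1] at e1
  linear_combination e1 + e2

/-- Second derivative. -/
theorem second (f : ℝ[X][Y]) (ψ : ℝ → ℝ) (x0 : ℝ) (hc : ContinuousAt ψ x0)
    (h0 : ∀ᶠ x in 𝓝 x0, evr f x (ψ x) = 0) (h1 : evr (dY f) x0 (ψ x0) ≠ 0) :
    HasDerivAt (fun x => -(evr (dX f) x (ψ x)) / evr (dY f) x (ψ x))
      (-(evr (hes f) x0 (ψ x0)) / (evr (dY f) x0 (ψ x0)) ^ 3) x0 := by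
  have hd := first f ψ x0 hc h0 h1
  have k1 := chain (dX f) ψ _ x0 hd
  have k2 := chain (dY f) ψ _ x0 hd
  have k3 := k1.neg.div k2 h1
  refine k3.congr_deriv ?_
  have e2 : evalEval x0 (ψ x0) (2 : ℝ[X][Y]) = 2 := by
    have : (2 : ℝ[X][Y]) = C (C 2) := by
      rw [map_ofNat, map_ofNat]
    rw [this]
    simp [evalEval]
  have e : evr (hes f) x0 (ψ x0) =
      evr (dX (dX f)) x0 (ψ x0) * (evr (dY f) x0 (ψ x0)) ^ 2 -
        2 * evr (dX (dY f)) x0 (ψ x0) * evr (dX f) x0 (ψ x0) * evr (dY f) x0 (ψ x0) +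
        evr (dY (dY f)) x0 (ψ x0) * (evr (dX f) x0 (ψ x0)) ^ 2 := by
    simp [hes, evr, e2]
  rw [e, ← dX_dY]
  have e3 : (-fun t => evr (dX f) t (ψ t)) x0 = -evr (dX f) x0 (ψ x0) := rfl
  rw [e3]
  field_simp
  ring

theorem sec : SEC := by
  intro f α β ψ hαβ hψ h
  have hcat : ∀ x ∈ Set.Ioo α β, ContinuousAt ψ x := fun x hx =>
    hψ.continuousAt (Icc_mem_nhds hx.1 hx.2)
  have hev : ∀ x ∈ Set.Ioo α β, ∀ᶠ t in 𝓝 x, evr f t (ψ t) = 0 := by
    intro x hx
    filter_upwards [Icc_mem_nhds hx.1 hx.2] with t ht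
    exact (h t ht).1
  have hne : ∀ x ∈ Set.Ioo α β, evr (dY f) x (ψ x) ≠ 0 := fun x hx =>
    (h x (Set.Ioo_subset_Icc_self hx)).2
  obtain ⟨D, hD⟩ : ∃ D : ℝ → ℝ, D = fun x => -(evr (dX f) x (ψ x)) / evr (dY f) x (ψ x) :=
    ⟨_, rfl⟩
  have d1 : ∀ x ∈ Set.Ioo α β, HasDerivAt ψ (D x) x := by
    intro x hx
    rw [hD]
    exact first f ψ x (hcat x hx) (hev x hx) (hne x hx)
  have d2 : ∀ x ∈ Set.Ioo α β, HasDerivAt D
      (-(evr (hes f) x (ψ x)) / (evr (dY f) x (ψ x)) ^ 3) x := by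
    intro x hx
    rw [hD]
    exact second f ψ x (hcat x hx) (hev x hx) (hne x hx)
  constructor
  · intro x1 x2 x3 h1 h12 h23 h3 hcol
    obtain ⟨ξ1, hξ1, e1⟩ := exists_hasDerivAt_eq_slope ψ D h12
      (hψ.mono (Set.Icc_subset_Icc h1 (by linarith)))
      (fun x hx => d1 x ⟨by linarith [hx.1], by linarith [hx.2]⟩)
    obtain ⟨ξ2, hξ2, e2⟩ := exists_hasDerivAt_eq_slope ψ D h23
      (hψ.mono (Set.Icc_subset_Icc (by linarith) h3))
      (fun x hx => d1 x ⟨by linarith [hx.1], by linarith [hx.2]⟩)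
    have hcol' : (x2 - x1) * (ψ x3 - ψ x1) = (ψ x2 - ψ x1) * (x3 - x1) := hcol
    have hD12 : D ξ1 = D ξ2 := by
      rw [e1, e2, div_eq_div_iff (by linarith) (by linarith)]
      linear_combination - hcol'
    have hlt : ξ1 < ξ2 := hξ1.2.trans hξ2.1
    obtain ⟨ξ, hξ, e3⟩ := exists_hasDerivAt_eq_slope D
      (fun x => -(evr (hes f) x (ψ x)) / (evr (dY f) x (ψ x)) ^ 3) hlt
      (fun x hx => (d2 x ⟨by linarith [hx.1, hξ1.1], by
        linarith [hx.2, hξ2.2]⟩).continuousAt.continuousWithinAt)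
      (fun x hx => d2 x ⟨by linarith [hx.1, hξ1.1], by linarith [hx.2, hξ2.2]⟩)
    have hmem : ξ ∈ Set.Ioo α β :=
      ⟨by linarith [hξ.1, hξ1.1], by linarith [hξ.2, hξ2.2]⟩
    refine ⟨ξ, Set.Ioo_subset_Icc_self hmem, ?_⟩
    rw [hD12, sub_self, zero_div] at e3
    have hn := hne ξ hmem
    have : (evr (dY f) ξ (ψ ξ)) ^ 3 ≠ 0 := pow_ne_zero _ hn
    rw [div_eq_zero_iff] at e3
    rcases e3 with e3 | e3
    · linarith
    · exact absurd e3 this
  · intro hz
    have hDc : ∀ x ∈ Set.Ioo α β, ∀ y ∈ Set.Ioo α β, x < y → D x = D y := by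
      intro x hx y hy hxy
      obtain ⟨ξ, hξ, e3⟩ := exists_hasDerivAt_eq_slope D
        (fun x => -(evr (hes f) x (ψ x)) / (evr (dY f) x (ψ x)) ^ 3) hxy
        (fun t ht => (d2 t ⟨by linarith [ht.1, hx.1], by
          linarith [ht.2, hy.2]⟩).continuousAt.continuousWithinAt)
        (fun t ht => d2 t ⟨by linarith [ht.1, hx.1], by linarith [ht.2, hy.2]⟩)
      have hmem : ξ ∈ Set.Ioo α β := ⟨by linarith [hξ.1, hx.1], by linarith [hξ.2, hy.2]⟩
      rw [hz ξ (Set.Ioo_subset_Icc_self hmem)] at e3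
      have hyx : y - x ≠ 0 := by linarith
      rw [neg_zero, zero_div, eq_comm, div_eq_zero_iff] at e3
      rcases e3 with e3 | e3
      · linarith
      · exact absurd e3 hyx
    obtain ⟨m, hm⟩ : ∃ m, m = (α + β) / 2 := ⟨_, rfl⟩
    have hmm : m ∈ Set.Ioo α β := ⟨by linarith, by linarith⟩
    have hDm : ∀ x ∈ Set.Ioo α β, D x = D m := by
      intro x hx
      rcases lt_trichotomy x m with hlt | heq | hgt
      · exact hDc x hx m hmm hlt
      · rw [heq]
      · exact (hDc m hmm x hx hgt).symm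
    refine ⟨D m, ψ α - D m * α, ?_⟩
    intro x hx
    rcases eq_or_lt_of_le hx.1 with heq | hlt
    · rw [← heq]
      ring
    · obtain ⟨ξ, hξ, e3⟩ := exists_hasDerivAt_eq_slope ψ D hlt
        (hψ.mono (Set.Icc_subset_Icc le_rfl hx.2))
        (fun t ht => d1 t ⟨ht.1, by linarith [ht.2, hx.2]⟩)
      rw [hDm ξ ⟨hξ.1, by linarith [hξ.2, hx.2]⟩, eq_div_iff (by linarith)] at e3
      linear_combination - e3

end Pool.Agent.Helper50.GP
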